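import Pool.Agent.H87.C3.Kit

set_option autoImplicit false

/-! # C3: the classes with `c³ = 1` -/

namespace Pool.Agent.H87.C3

open NumberField Pool.Agent.H82.C3 Finset

theorem cgc_sgn (A B A' B' : ℤ) (hA : A.natAbs = A'.natAbs) (hB : B.natAbs = B'.natAbs)
    (hs : 0 ≤ A * B ↔ 0 ≤ A' * B') : (A = A' ∧ B = B') ∨ (A = -A' ∧ B = -B') := by
  rcases Int.natAbs_eq_natAbs_iff.mp hA with rfl | rfl <;>
  rcases Int.natAbs_eq_natAbs_iff.mp hB with rfl | rfl
  · left; exact ⟨rfl, rfl⟩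
  · have h0 : A * B' = 0 := by
      rw [mul_neg, Left.nonneg_neg_iff] at hs
      rcases le_total 0 (A * B') with h | h
      · exact le_antisymm (hs.mpr h) h
      · exact le_antisymm h (hs.mp h)
    rcases mul_eq_zero.mp h0 with h | h
    · right; subst h; exact ⟨by simp, rfl⟩
    · left; subst h; exact ⟨rfl, by simp⟩
  · have h0 : A' * B = 0 := by
      rw [neg_mul, Left.nonneg_neg_iff] at hs
      rcases le_total 0 (A' * B) with h | h
      · exact le_antisymm (hs.mpr h) h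
      · exact le_antisymm h (hs.mp h)
    rcases mul_eq_zero.mp h0 with h | h
    · left; subst h; exact ⟨by simp, rfl⟩
    · right; subst h; exact ⟨rfl, by simp⟩
  · right; exact ⟨rfl, rfl⟩

theorem cgc_sq {a N : ℤ} (hN : 0 < N) (h : a ^ 2 = N ^ 3) : ∃ k : ℤ, N = k ^ 2 ∧ a = k ^ 3 := by
  have h1 : N ^ 2 ∣ a ^ 2 := ⟨N, by rw [h]; ring⟩
  have h2 : N ∣ a := (Int.pow_dvd_pow_iff (by norm_num)).mp h1
  obtain ⟨k, hk⟩ := h2
  have h3 : N ^ 2 * (k ^ 2 - N) = 0 := by
    rw [hk] at h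
    linear_combination h
  have h4 : k ^ 2 - N = 0 := by
    rcases mul_eq_zero.mp h3 with h5 | h5
    · exfalso
      have : 0 < N ^ 2 := by positivity
      omega
    · exact h5
  have h5 : N = k ^ 2 := by omega
  exact ⟨k, h5, by rw [hk, h5]; ring⟩

theorem t_CGC (h : S_CGA) : S_CGC := by
  intro K _ _ d h2 hd hd4 h7 hdisc
  classical
  obtain ⟨s, hs⟩ := exists_s h2 d hdisc
  have hd1 : 1 ≤ d := by omega
  have key : ∀ c : ClassGroup (𝓞 K), c ^ 3 = 1 → c ≠ 1 →
      ∃ (I : Ideal (𝓞 K)) (hI : I ∈ nonZeroDivisors (Ideal (𝓞 K))) (β : 𝓞 K) (A B : ℤ),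
      ClassGroup.mk0 ⟨I, hI⟩ = c ∧ I ^ 3 = Ideal.span {β} ∧ 2 * (β : K) = A + B * s ∧
      A ^ 2 + d * B ^ 2 = 4 * (Ideal.absNorm I : ℤ) ^ 3 ∧ B ≠ 0 ∧ (Ideal.absNorm I) ^ 2 ≤ d := by
    intro c hc hc1
    obtain ⟨I, hI, h3, h4, -⟩ := h K d h2 hd hd4 h7 hdisc c
    have hprin : (I ^ 3).IsPrincipal := by
      have hIk : I ^ 3 ∈ nonZeroDivisors (Ideal (𝓞 K)) := pow_mem hI 3
      rw [← ClassGroup.mk0_eq_one_iff hIk]
      have : ClassGroup.mk0 ⟨I ^ 3, hIk⟩ = (ClassGroup.mk0 ⟨I, hI⟩) ^ 3 := by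
        rw [← map_pow]; rfl
      rw [this, h3, hc]
    obtain ⟨⟨β, hβ⟩⟩ := hprin
    have hβ' : I ^ 3 = Ideal.span {β} := hβ
    obtain ⟨A, B, e1, e2, e3⟩ := int_coords h2 d hd hd4 s hs β
    have hN : (Ideal.absNorm I : ℤ) ^ 3 = Algebra.norm ℤ β := by
      rw [← absNorm_span h2 d hd hd4 s hs β, ← hβ', map_pow]
      push_cast
      rfl
    refine ⟨I, hI, β, A, B, h3, hβ', e1, by rw [hN]; exact e2, ?_, h4⟩
    intro hB
    apply hc1
    subst hB
    obtain ⟨a, ha⟩ : ∃ a : ℤ, A = 2 * a := ⟨A / 2, by omega⟩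
    have hβa : β = (a : 𝓞 K) := by
      apply RingOfIntegers.coe_injective
      rw [map_intCast]
      rw [ha] at e1
      push_cast at e1
      change (β : K) = a
      linear_combination (1 / 2 : K) * e1
    have ha2 : a ^ 2 = (Ideal.absNorm I : ℤ) ^ 3 := by
      rw [hN]
      rw [ha] at e2
      linarith
    have hI0 : 0 < (Ideal.absNorm I : ℤ) := by
      have : Ideal.absNorm I ≠ 0 := by
        rw [Ne, Ideal.absNorm_eq_zero_iff]
        exact nonZeroDivisors.ne_zero hI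
      omega
    obtain ⟨k, hk1, hk2⟩ := cgc_sq hI0 ha2
    have hIk : I = Ideal.span {(k : 𝓞 K)} := by
      apply Pool.Agent.H82.CR.ideal_pow_inj
      rw [hβ', hβa, hk2, Ideal.span_singleton_pow]
      push_cast
      rfl
    rw [← h3, ClassGroup.mk0_eq_one_iff]
    exact ⟨⟨(k : 𝓞 K), hIk⟩⟩
  choose I hI β A B p1 p2 p3 p4 p5 p6 using key
  obtain ⟨S, hS⟩ : ∃ S : Finset (ℕ × ℕ × ℕ), S = ((range (d + 1) ×ˢ range (4 * d ^ 3 + 1) ×ˢ
    range (4 * d ^ 3 + 1)).filter
      (fun z : ℕ × ℕ × ℕ => z.1 ^ 2 ≤ d ∧ 1 ≤ z.2.2 ∧ z.2.1 ^ 2 + d * z.2.2 ^ 2 = 4 * z.1 ^ 3)) :=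
    ⟨_, rfl⟩
  have hSc : S.card = R3 d := by rw [hS, R3]
  have hmem : ∀ c hc hc1, ((Ideal.absNorm (I c hc hc1), (A c hc hc1).natAbs,
      (B c hc hc1).natAbs) : ℕ × ℕ × ℕ) ∈ S := by
    intro c hc hc1
    have q4 := p4 c hc hc1
    have q5 := p5 c hc hc1
    have q6 := p6 c hc hc1
    obtain ⟨r, hr⟩ : ∃ r, r = Ideal.absNorm (I c hc hc1) := ⟨_, rfl⟩
    obtain ⟨n, hn⟩ : ∃ n, n = (A c hc hc1).natAbs := ⟨_, rfl⟩
    obtain ⟨f, hf⟩ : ∃ f, f = (B c hc hc1).natAbs := ⟨_, rfl⟩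
    rw [← hr] at q4 q6 ⊢
    rw [← hn, ← hf]
    have hf1 : 1 ≤ f := by
      rw [hf]
      exact Nat.one_le_iff_ne_zero.mpr (Int.natAbs_ne_zero.mpr q5)
    have e : n ^ 2 + d * f ^ 2 = 4 * r ^ 3 := by
      have : ((n : ℤ)) ^ 2 + d * (f : ℤ) ^ 2 = 4 * (r : ℤ) ^ 3 := by
        rw [hn, hf, Int.natAbs_sq, Int.natAbs_sq]
        exact q4
      exact_mod_cast this
    have hrd : r ≤ d := le_trans (Nat.le_self_pow (by norm_num) r) q6
    have hr3 : 4 * r ^ 3 ≤ 4 * d ^ 3 := by gcongr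
    have hn2 : n ≤ n ^ 2 := Nat.le_self_pow (by norm_num) n
    have hf2 : f ≤ f ^ 2 := Nat.le_self_pow (by norm_num) f
    have hf3 : f ^ 2 ≤ d * f ^ 2 := Nat.le_mul_of_pos_left _ (by omega)
    rw [hS, mem_filter, mem_product, mem_product, mem_range, mem_range, mem_range]
    exact ⟨⟨by simp only; omega, by simp only; omega, by simp only; omega⟩, q6, hf1, e⟩
  let F : {c : ClassGroup (𝓞 K) // c ^ 3 = 1} → Option (S × Bool) := fun c =>
    if hc1 : c.1 = 1 then none else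
      some (⟨_, hmem c.1 c.2 hc1⟩, decide (0 ≤ A c.1 c.2 hc1 * B c.1 c.2 hc1))
  have hF : Function.Injective F := by
    rintro ⟨c, hc⟩ ⟨c', hc'⟩ he
    by_cases h1 : c = 1
    · by_cases h1' : c' = 1
      · apply Subtype.ext
        change c = c'
        rw [h1, h1']
      · exfalso
        simp only [F, h1, h1', dite_true, dite_false] at he
        exact absurd he (by simp)
    · by_cases h1' : c' = 1
      · exfalso
        simp only [F, h1, h1', dite_true, dite_false] at he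
        exact absurd he (by simp)
      · simp only [F, h1, h1', dite_false, Option.some.injEq, Prod.mk.injEq, Subtype.mk.injEq,
          decide_eq_decide] at he
        obtain ⟨⟨q1, q2, q3⟩, q4⟩ := he
        have hββ : β c hc h1 = β c' hc' h1' ∨ β c hc h1 = -β c' hc' h1' := by
          have w1 := p3 c hc h1
          have w2 := p3 c' hc' h1'
          rcases cgc_sgn _ _ _ _ q2 q3 q4 with ⟨g1, g2⟩ | ⟨g1, g2⟩
          · left
            apply RingOfIntegers.coe_injective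
            rw [g1, g2, ← w2] at w1
            exact mul_left_cancel₀ (two_ne_zero) w1
          · right
            apply RingOfIntegers.coe_injective
            rw [g1, g2] at w1
            push_cast at w1
            have : 2 * ((β c hc h1 : 𝓞 K) : K) = 2 * -((β c' hc' h1' : 𝓞 K) : K) := by
              rw [w1]
              linear_combination w2
            rw [map_neg]
            exact mul_left_cancel₀ (two_ne_zero) this
        have hII : I c hc h1 = I c' hc' h1' := by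
          apply Pool.Agent.H82.CR.ideal_pow_inj
          rw [p2, p2]
          rcases hββ with h | h
          · rw [h]
          · rw [h, Ideal.span_singleton_neg]
        apply Subtype.ext
        change c = c'
        rw [← p1 c hc h1, ← p1 c' hc' h1']
        congr 1
        exact Subtype.ext hII
  have h5 := Nat.card_le_card_of_injective F hF
  rw [Finite.card_option, Nat.card_prod, Nat.card_eq_fintype_card (α := S), Fintype.card_coe, hSc,
    Nat.card_eq_fintype_card (α := Bool), Fintype.card_bool] at h5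
  omega

end Pool.Agent.H87.C3
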