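import Pool.Agent.H87.C3.Kit

set_option autoImplicit false

/-! # C3: the pairs `(m, n)` with `4 m³ = n² + d f²` -/

namespace Pool.Agent.H87.C3

open NumberField Pool.Agent.H82.C3 Finset

theorem cgd_norm {K : Type*} [Field K] [NumberField K] (h2 : Module.finrank ℚ K = 2) (d : ℕ)
    (hd : Squarefree d) (hd4 : d % 4 = 3) (s : K) (hs : s ^ 2 = -(d : K)) (β : 𝓞 K) (A B : ℤ)
    (h : 2 * (β : K) = A + B * s) : A ^ 2 + d * B ^ 2 = 4 * Algebra.norm ℤ β := by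
  obtain ⟨A', B', h1, h3, -⟩ := int_coords h2 d hd hd4 s hs β
  rw [h] at h1
  obtain ⟨e1, e2⟩ := coord_inj d (by omega) s hs _ _ _ _ h1
  rw [e1, e2]
  exact h3

theorem t_CGD (hB : S_CGB) (hC : S_CGC) : S_CGD := by
  intro K _ _ d h2 hd hd4 h7 hdisc Y hY V hV
  classical
  obtain ⟨s, hs⟩ := exists_s h2 d hdisc
  have key : ∀ v ∈ V, ∃ (I : Ideal (𝓞 K)) (β : 𝓞 K) (f : ℤ),
      I ∈ nonZeroDivisors (Ideal (𝓞 K)) ∧
      2 * (β : K) = v.2 + f * s ∧ I ^ 3 = Ideal.span {β} ∧ (Ideal.absNorm I : ℤ) = v.1 := by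
    intro v hv
    obtain ⟨h3, h4, h5, h6, f, hf1, hf⟩ := hV v hv
    have e : v.2 ^ 2 + d * (f : ℤ) ^ 2 = 4 * v.1 ^ 3 := by
      unfold DD at hf
      linarith
    obtain ⟨x, y, hx, hy, hxy, hxy2⟩ :=
      Pool.Agent.H82.CR.exists_el d s hs v.2 (f : ℤ) (v.1 ^ 3) e
    obtain ⟨k, hk⟩ : ∃ k : ℕ, v.1 = k := ⟨v.1.toNat, by omega⟩
    have hk1 : 1 < k := by
      by_contra hcon
      have hk1 : v.1 = 1 := by omega
      rw [hk1] at e
      have h7' : (7 : ℤ) ≤ d := by exact_mod_cast h7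
      have hf2 : (1 : ℤ) ≤ (f : ℤ) ^ 2 := by
        have : (1 : ℤ) ≤ (f : ℤ) := by exact_mod_cast hf1
        nlinarith
      nlinarith [sq_nonneg v.2]
    obtain ⟨I, J, hI, hJ, hIJ, hc⟩ := Pool.Agent.H82.CR.exists_cube x y v.2 k hk1
      (by rw [hxy, hk]; push_cast; rfl) hxy2 (by rw [← hk]; exact h6.symm)
    have hx2 : 2 * (x : K) = v.2 + ((f : ℤ) : K) * s := by
      rw [hx]
      push_cast
      ring
    have hn := cgd_norm h2 d hd hd4 s hs x v.2 f hx2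
    have hn2 : Algebra.norm ℤ x = v.1 ^ 3 := by linarith
    have hn3 : (Ideal.absNorm I : ℤ) ^ 3 = v.1 ^ 3 := by
      rw [← hn2, ← absNorm_span h2 d hd hd4 s hs x, hI, map_pow]
      push_cast
      rfl
    have hn4 : Ideal.absNorm I = k := by
      rw [hk] at hn3
      exact Nat.pow_left_injective (by norm_num : (3 : ℕ) ≠ 0) (by exact_mod_cast hn3)
    refine ⟨I, x, f, ?_, hx2, hI.symm, by rw [hn4, hk]⟩
    apply mem_nonZeroDivisors_of_ne_zero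
    intro h0
    rw [h0] at hn4
    simp at hn4
    omega
  choose! I β f p1 p2 p3 p4 using key
  have hinj : Set.InjOn I V := by
    intro v hv w hw he
    have hv' := hV v hv
    have hw' := hV w hw
    have e1 : v.1 = w.1 := by rw [← p4 v hv, ← p4 w hw, he]
    have e2 : Ideal.span {β v} = Ideal.span {β w} := by rw [← p3 v hv, ← p3 w hw, he]
    have q1 := p2 v hv
    have q2 := p2 w hw
    have e3 : v.2 = w.2 := by
      rcases span_eq h2 d hd hd4 h7 s hs _ _ e2 with h | h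
      · rw [h, q2] at q1
        exact (coord_inj d (by omega) s hs _ _ _ _ q1).1.symm
      · exfalso
        have hneg : ((-β w : 𝓞 K) : K) = -((β w : 𝓞 K) : K) := by push_cast; rfl
        rw [h, hneg] at q1
        have q3 : ((w.2 : ℤ) : K) + (f w : K) * s = ((-v.2 : ℤ) : K) + ((-(f v) : ℤ) : K) * s := by
          push_cast
          linear_combination -q1 - q2
        have := (coord_inj d (by omega) s hs _ _ _ _ q3).1
        omega
    exact Prod.ext e1 e3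
  obtain ⟨cl, hcl⟩ : ∃ cl : Ideal (𝓞 K) → ClassGroup (𝓞 K), ∀ (J : Ideal (𝓞 K))
      (hJ : J ∈ nonZeroDivisors (Ideal (𝓞 K))), cl J = ClassGroup.mk0 ⟨J, hJ⟩ :=
    ⟨fun J => if hJ : J ∈ nonZeroDivisors (Ideal (𝓞 K)) then ClassGroup.mk0 ⟨J, hJ⟩ else 1,
      fun J hJ => dif_pos hJ⟩
  obtain ⟨Z, hZ⟩ : ∃ Z : ℝ, Z = (Y : ℝ) / Real.sqrt d + Real.sqrt Y + 1 := ⟨_, rfl⟩
  have hZ0 : 0 ≤ Z := by rw [hZ]; positivity
  rw [← hZ]
  obtain ⟨T, hT⟩ : ∃ T : Finset (ClassGroup (𝓞 K)), T = univ.filter (fun c => c ^ 3 = 1) :=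
    ⟨_, rfl⟩
  have hTc : (T.card : ℝ) ≤ 1 + 2 * R3 d := by
    have h3 := hC K d h2 hd hd4 h7 hdisc
    rw [Nat.card_eq_fintype_card, Fintype.card_subtype, ← hT] at h3
    exact_mod_cast h3
  have hmaps : ∀ J ∈ V.image I, cl J ∈ T := by
    intro J hJ
    obtain ⟨v, hv, rfl⟩ := mem_image.mp hJ
    rw [hT, mem_filter]
    refine ⟨mem_univ _, ?_⟩
    rw [hcl _ (p1 v hv)]
    have hIk : (I v) ^ 3 ∈ nonZeroDivisors (Ideal (𝓞 K)) := pow_mem (p1 v hv) 3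
    have e : ClassGroup.mk0 ⟨(I v) ^ 3, hIk⟩ = (ClassGroup.mk0 ⟨I v, p1 v hv⟩) ^ 3 := by
      rw [← map_pow]
      rfl
    rw [← e, ClassGroup.mk0_eq_one_iff]
    exact ⟨⟨β v, p3 v hv⟩⟩
  have hcard : (V.card : ℝ) = ∑ c ∈ T, (((V.image I).filter (fun J => cl J = c)).card : ℝ) := by
    rw [← card_image_of_injOn hinj, card_eq_sum_card_fiberwise hmaps]
    push_cast
    rfl
  have hfib : ∀ c ∈ T, (((V.image I).filter (fun J => cl J = c)).card : ℝ) ≤ 10 * Z := by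
    intro c _
    rw [hZ]
    apply hB K d h2 hd hd4 h7 hdisc c Y hY
    intro J hJ
    obtain ⟨h3, h4⟩ := mem_filter.mp hJ
    obtain ⟨v, hv, rfl⟩ := mem_image.mp h3
    refine ⟨p1 v hv, ?_, ?_⟩
    · rw [← h4, hcl _ (p1 v hv)]
    · have h5 := (hV v hv).2.1
      have h6 := p4 v hv
      omega
  have hR : (0 : ℝ) ≤ R3 d := Nat.cast_nonneg _
  calc (V.card : ℝ) = ∑ c ∈ T, (((V.image I).filter (fun J => cl J = c)).card : ℝ) := hcard
    _ ≤ ∑ _c ∈ T, 10 * Z := sum_le_sum hfib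
    _ = T.card * (10 * Z) := by rw [sum_const, nsmul_eq_mul]
    _ ≤ (1 + 2 * R3 d) * (10 * Z) := by gcongr
    _ ≤ 100 * (1 + R3 d) * Z := by nlinarith [mul_nonneg hR hZ0]

end Pool.Agent.H87.C3
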