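import Pool.Agent.H82.C3.Stm
import Pool.Agent.H82.CR.A1

set_option autoImplicit false

/-! # Imaginary quadratic fields: coordinates, norms, units -/

namespace Pool.Agent.H87.C3

open NumberField

variable {K : Type*} [Field K] [NumberField K]

/-- a square root of the discriminant -/
theorem exists_s (h2 : Module.finrank ℚ K = 2) (d : ℕ) (hdisc : discr K = -(d : ℤ)) :
    ∃ s : K, s ^ 2 = -(d : K) := by
  classical
  have : Algebra.IsQuadraticExtension ℚ K := ⟨h2⟩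
  have : IsGalois ℚ K := inferInstance
  have hcard : Nat.card (K ≃ₐ[ℚ] K) = 2 := by
    rw [IsGalois.card_aut_eq_finrank, h2]
  have hcard' : Fintype.card (K ≃ₐ[ℚ] K) = 2 := by
    rw [← Nat.card_eq_fintype_card, hcard]
  obtain ⟨τ, hτ⟩ : ∃ τ : K ≃ₐ[ℚ] K, τ ≠ 1 := by
    have : Nontrivial (K ≃ₐ[ℚ] K) := by
      apply Fintype.one_lt_card_iff_nontrivial.mp
      omega
    exact exists_ne 1
  have huniv : (Finset.univ : Finset (K ≃ₐ[ℚ] K)) = {1, τ} := by
    symm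
    apply Finset.eq_univ_of_card
    rw [hcard', Finset.card_pair hτ.symm]
  have htr : ∀ x : 𝓞 K, ((Algebra.trace ℤ (𝓞 K) x : ℤ) : K) = (x : K) + τ x := by
    intro x
    have h3 := trace_eq_sum_automorphisms (K := ℚ) (x : K)
    rw [huniv, Finset.sum_pair hτ.symm, ← Algebra.coe_trace_int] at h3
    rw [map_intCast] at h3
    exact h3
  have hc : Fintype.card (Module.Free.ChooseBasisIndex ℤ (𝓞 K)) = 2 := by
    rw [← Module.finrank_eq_card_basis (RingOfIntegers.basis K), RingOfIntegers.rank, h2]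
  let e : Module.Free.ChooseBasisIndex ℤ (𝓞 K) ≃ Fin 2 := Fintype.equivFinOfCardEq hc
  set b : Module.Basis (Fin 2) ℤ (𝓞 K) := (RingOfIntegers.basis K).reindex e with hb
  have hdb : Algebra.discr ℤ b = discr K := NumberField.discr_eq_discr K b
  refine ⟨(b 0 : K) * τ (b 1) - (b 1 : K) * τ (b 0), ?_⟩
  have h4 : ((discr K : ℤ) : K) = -(d : K) := by rw [hdisc]; push_cast; rfl
  rw [← h4, ← hdb, Algebra.discr_def, Matrix.det_fin_two]
  simp only [Algebra.traceMatrix_apply, Algebra.traceForm_apply]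
  push_cast
  rw [htr, htr, htr, htr]
  simp only [map_mul]
  ring

/-- coordinates of integral elements -/
theorem int_coords (h2 : Module.finrank ℚ K = 2) (d : ℕ) (hd : Squarefree d) (hd4 : d % 4 = 3)
    (s : K) (hs : s ^ 2 = -(d : K)) (β : 𝓞 K) :
    ∃ A B : ℤ, 2 * (β : K) = A + B * s ∧ A ^ 2 + d * B ^ 2 = 4 * Algebra.norm ℤ β ∧
      A % 2 = B % 2 := by
  have hd1 : 1 ≤ d := Nat.one_le_iff_ne_zero.mpr hd.ne_zero
  obtain ⟨u, v, huv⟩ := Pool.Agent.Q148.CG.coords h2 d hd1 s hs (β : K)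
  obtain ⟨hN, hT⟩ := Pool.Agent.Q148.CG.exists_conj h2 d hd1 s hs (β : K) u v huv
  have h3 : ((Algebra.norm ℤ β : ℤ) : ℚ) = u ^ 2 + d * v ^ 2 := by
    rw [Algebra.coe_norm_int, hN]
  have h4 : ((Algebra.trace ℤ (𝓞 K) β : ℤ) : ℚ) = 2 * u := by
    rw [Algebra.coe_trace_int, hT]
  obtain ⟨N, hNd⟩ : ∃ N : ℤ, N = Algebra.norm ℤ β := ⟨_, rfl⟩
  obtain ⟨t, ht⟩ : ∃ t : ℤ, t = Algebra.trace ℤ (𝓞 K) β := ⟨_, rfl⟩
  rw [← hNd] at h3 ⊢
  rw [← ht] at h4
  have h5 : (d : ℚ) * (2 * v) ^ 2 = ((4 * N - t ^ 2 : ℤ) : ℚ) := by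
    push_cast
    rw [h3, h4]
    ring
  obtain ⟨z, hz⟩ := Pool.Agent.Q148.CG.rat_int d hd (2 * v) _ h5
  have h6 : (d : ℤ) * z ^ 2 = 4 * N - t ^ 2 := by
    rw [hz] at h5
    exact_mod_cast h5
  refine ⟨t, z, ?_, by linarith, ?_⟩
  · have e1 : ((t : ℚ) : K) = ((2 * u : ℚ) : K) := by rw [h4]
    have e2 : ((z : ℚ) : K) = ((2 * v : ℚ) : K) := by rw [hz]
    rw [huv]
    push_cast at e1 e2
    rw [e1, e2]
    ring
  · obtain ⟨k, hk⟩ : ∃ k : ℤ, (d : ℤ) = 4 * k + 3 := ⟨((d / 4 : ℕ) : ℤ), by omega⟩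
    rw [hk] at h6
    rcases Int.emod_two_eq_zero_or_one t with ht0 | ht1 <;>
    rcases Int.emod_two_eq_zero_or_one z with hz0 | hz1
    · omega
    · exfalso
      obtain ⟨a, ha⟩ : ∃ a, t = 2 * a := ⟨t / 2, by omega⟩
      obtain ⟨c, hc⟩ : ∃ c, z = 2 * c + 1 := ⟨z / 2, by omega⟩
      have : (4 * k + 3) * (2 * c + 1) ^ 2 = 4 * N - (2 * a) ^ 2 := by rw [← hc, ← ha]; exact h6
      have : 4 * (4 * k * c ^ 2 + 4 * k * c + k + 3 * c ^ 2 + 3 * c - N + a ^ 2) + 3 = 0 := by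
        linear_combination this
      omega
    · exfalso
      obtain ⟨a, ha⟩ : ∃ a, t = 2 * a + 1 := ⟨t / 2, by omega⟩
      obtain ⟨c, hc⟩ : ∃ c, z = 2 * c := ⟨z / 2, by omega⟩
      have : (4 * k + 3) * (2 * c) ^ 2 = 4 * N - (2 * a + 1) ^ 2 := by rw [← hc, ← ha]; exact h6
      have : 4 * ((4 * k + 3) * c ^ 2 - N + a ^ 2 + a) + 1 = 0 := by
        linear_combination this
      omega
    · omega

theorem norm_nonneg (h2 : Module.finrank ℚ K = 2) (d : ℕ) (hd : Squarefree d) (hd4 : d % 4 = 3)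
    (s : K) (hs : s ^ 2 = -(d : K)) (β : 𝓞 K) : 0 ≤ Algebra.norm ℤ β := by
  obtain ⟨A, B, -, h, -⟩ := int_coords h2 d hd hd4 s hs β
  have : 0 ≤ A ^ 2 + d * B ^ 2 := by positivity
  omega

theorem absNorm_span (h2 : Module.finrank ℚ K = 2) (d : ℕ) (hd : Squarefree d) (hd4 : d % 4 = 3)
    (s : K) (hs : s ^ 2 = -(d : K)) (β : 𝓞 K) :
    (Ideal.absNorm (Ideal.span {β}) : ℤ) = Algebra.norm ℤ β := by
  rw [Ideal.absNorm_span_singleton, Int.natAbs_of_nonneg (norm_nonneg h2 d hd hd4 s hs β)]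

theorem coord_inj (d : ℕ) (hd : 1 ≤ d) (s : K)
    (hs : s ^ 2 = -(d : K)) (A B A' B' : ℤ) (h : (A : K) + B * s = A' + B' * s) :
    A = A' ∧ B = B' := by
  have hB : B = B' := by
    by_contra hne
    have h1 : ((B - B' : ℤ) : K) ≠ 0 := by
      have : B - B' ≠ 0 := sub_ne_zero.mpr hne
      exact_mod_cast this
    apply Pool.Agent.Q148.CG.s_not_rat d hd s hs (((A' - A : ℤ) : ℚ) / ((B - B' : ℤ) : ℚ))
    push_cast at h1 ⊢
    rw [eq_div_iff h1]
    linear_combination h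
  refine ⟨?_, hB⟩
  rw [hB] at h
  have : (A : K) = A' := by linear_combination h
  exact_mod_cast this

/-- generators of the same ideal -/
theorem span_eq (h2 : Module.finrank ℚ K = 2) (d : ℕ) (hd : Squarefree d) (hd4 : d % 4 = 3)
    (h7 : 7 ≤ d) (s : K) (hs : s ^ 2 = -(d : K)) (β γ : 𝓞 K)
    (h : Ideal.span {β} = Ideal.span {γ}) : β = γ ∨ β = -γ := by
  rw [Ideal.span_singleton_eq_span_singleton] at h
  obtain ⟨u, hu⟩ := h
  obtain ⟨A, B, h1, h3, -⟩ := int_coords h2 d hd hd4 s hs (u : 𝓞 K)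
  have hn : Algebra.norm ℤ (u : 𝓞 K) = 1 := by
    have h4 : IsUnit (Algebra.norm ℤ (u : 𝓞 K)) := u.isUnit.map (Algebra.norm ℤ)
    have h5 := norm_nonneg h2 d hd hd4 s hs (u : 𝓞 K)
    rcases Int.isUnit_iff.mp h4 with h6 | h6
    · exact h6
    · omega
  rw [hn] at h3
  have h7' : (7 : ℤ) ≤ d := by exact_mod_cast h7
  have hB : B = 0 := by
    by_contra hB
    have : 1 ≤ B ^ 2 := by
      have : 0 < B ^ 2 := by positivity
      omega
    nlinarith [sq_nonneg A]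
  rw [hB] at h1 h3
  have hA : A = 2 ∨ A = -2 := by
    have : (A - 2) * (A + 2) = 0 := by linear_combination h3
    rcases mul_eq_zero.mp this with h | h
    · left; omega
    · right; omega
  have hu1 : (u : 𝓞 K) = 1 ∨ (u : 𝓞 K) = -1 := by
    rcases hA with rfl | rfl
    · left
      apply RingOfIntegers.coe_injective
      rw [map_one]
      push_cast at h1
      change ((u : 𝓞 K) : K) = 1
      linear_combination (1 / 2 : K) * h1
    · right
      apply RingOfIntegers.coe_injective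
      rw [map_neg, map_one]
      push_cast at h1
      change ((u : 𝓞 K) : K) = -1
      linear_combination (1 / 2 : K) * h1
  rcases hu1 with h | h
  · left; rw [← hu, h, mul_one]
  · right; rw [← hu, h]; ring

end Pool.Agent.H87.C3
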